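import Pool.Agent.Helper44.GJ.Stmts

/-! Row GD: the derivatives of `|t| ^ p`, `2 < p ≤ 3`. -/

set_option autoImplicit false

namespace Pool.Agent.Helper26.GJ

open Pool.Agent.Helper44.GJ Filter Topology

theorem g1_zero (p : ℝ) : g1 p 0 = 0 := by
  unfold g1
  ring

theorem absq_le {q t : ℝ} (h0 : 0 ≤ q) (h1 : q ≤ 1) : |t| ^ q ≤ 1 + |t| := by
  have a := abs_nonneg t
  have h2 : |t| ^ q ≤ (1 + |t|) ^ q := Real.rpow_le_rpow a (by linarith) h0
  have h3 : (1 + |t|) ^ q ≤ (1 + |t|) ^ (1 : ℝ) := Real.rpow_le_rpow_of_exponent_le (by linarith) h1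
  rw [Real.rpow_one] at h3
  exact h2.trans h3

theorem g1_deriv {p : ℝ} (hp : 2 < p) (t : ℝ) : HasDerivAt (g1 p) (g2 p t) t := by
  by_cases ht : t = 0
  · subst ht
    rw [hasDerivAt_iff_tendsto_slope_zero]
    have hc : Continuous fun h : ℝ => p * |h| ^ (p - 2) :=
      continuous_const.mul (continuous_abs.rpow_const fun x => Or.inr (by linarith))
    have h1 : Tendsto (fun h : ℝ => p * |h| ^ (p - 2)) (𝓝[≠] 0) (𝓝 (p * |(0 : ℝ)| ^ (p - 2))) :=
      (hc.tendsto 0).mono_left nhdsWithin_le_nhds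
    have h2 : p * |(0 : ℝ)| ^ (p - 2) = g2 p 0 := by
      unfold g2
      rw [abs_zero, Real.zero_rpow (by linarith), mul_zero, mul_zero]
    rw [h2] at h1
    refine h1.congr' ?_
    filter_upwards [self_mem_nhdsWithin] with h hh
    have hh' : h ≠ 0 := hh
    rw [zero_add, g1_zero, sub_zero, smul_eq_mul]
    unfold g1
    field_simp
  · have h0 : |t| ≠ 0 := abs_ne_zero.mpr ht
    have h1 : HasDerivAt (fun x : ℝ => |x|) (SignType.sign t : ℝ) t := hasDerivAt_abs ht
    have h2 : HasDerivAt (fun x : ℝ => |x| ^ (p - 2)) ((SignType.sign t : ℝ) * (p - 2) * |t| ^ (p - 2 - 1)) t :=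
      h1.rpow_const (Or.inl h0)
    have h3 := (h2.const_mul p).mul (hasDerivAt_id t)
    have e : p * ((SignType.sign t : ℝ) * (p - 2) * |t| ^ (p - 2 - 1)) * id t + p * |t| ^ (p - 2) * 1 = g2 p t := by
      have e1 : (SignType.sign t : ℝ) * t = |t| := sign_mul_self t
      have e2 : |t| ^ (p - 2) = |t| ^ (p - 2 - 1) * |t| := by
        rw [← Real.rpow_add_one h0]
        congr 1
        ring
      unfold g2
      rw [id, e2]
      linear_combination (p * (p - 2) * |t| ^ (p - 2 - 1)) * e1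
    rw [e] at h3
    exact h3

/-- ROW GD -/
theorem st_GD : ST_GD := by
  intro p hp hp3
  have hq : (0 : ℝ) ≤ p - 2 := by linarith
  refine ⟨fun t => ?_, g1_deriv hp, ?_, ?_, fun t => ?_, fun t => ?_, fun t => ?_, fun t => ?_, g1_zero p, ?_⟩
  · exact hasDerivAt_abs_rpow t (by linarith)
  · unfold g1
    exact (continuous_const.mul (continuous_abs.rpow_const fun x => Or.inr hq)).mul continuous_id
  · unfold g2
    exact continuous_const.mul (continuous_abs.rpow_const fun x => Or.inr hq)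
  · unfold g2
    have := Real.rpow_nonneg (abs_nonneg t) (p - 2)
    have h2 : 0 ≤ p * (p - 1) := mul_nonneg (by linarith) (by linarith)
    positivity
  · unfold g1
    rw [abs_neg]
    ring
  · unfold g1
    have a := abs_nonneg t
    have b := absq_le (t := t) hq (by linarith)
    have c := Real.rpow_nonneg a (p - 2)
    rw [abs_mul, abs_mul, abs_of_nonneg (by linarith : (0 : ℝ) ≤ p), abs_of_nonneg c]
    have h1 : |t| ^ (p - 2) * |t| ≤ (1 + |t|) * (1 + |t|) := mul_le_mul b (by linarith) a (by linarith)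
    have h2 : p * |t| ^ (p - 2) * |t| = p * (|t| ^ (p - 2) * |t|) := by ring
    rw [h2]
    have h3 : 0 ≤ |t| ^ (p - 2) * |t| := mul_nonneg c a
    nlinarith
  · unfold g2
    have a := abs_nonneg t
    have b := absq_le (t := t) hq (by linarith)
    have c := Real.rpow_nonneg a (p - 2)
    have h1 : p * (p - 1) ≤ 6 := by nlinarith
    exact mul_le_mul h1 b c (by norm_num)
  · unfold g2
    rw [abs_zero, Real.zero_rpow (by linarith), mul_zero]

end Pool.Agent.Helper26.GJ
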